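import Pool.Agent.R554.PCGHard

/-!
# Generalized PCG recognition is NP-hard

The decision problem has as input a graph `G` and a set `S` of pairs of its vertices, both given by
Boolean matrices, and asks whether `S` consists of non-edges of `G` and some pairwise compatibility
graph `PCG(T, dmin, dmax)` on the vertex set of `G` contains every edge of `G` and no pair in `S`
(`Pool.Agent.R554.PCG.Question`; trees and their pairwise compatibility graphs are defined in
`Pool.Agent.R554.LeafTree`).
-/

set_option autoImplicit false

namespace Pool.Agent.Results.MP_9390ab_lc.GeneralizedPCGHard

open Pool.Agent.NPC Pool.Agent.R554 Pool.Agent.R554.PCG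

/-- Generalized PCG recognition is NP-hard under polynomial-time many-one reductions; if it is in
`P`, then all of `NP` is in `P`. -/
theorem result : NPHardP Question ∧ (InPP Question → ∀ L : Set (List Bool), InNP L → InP L) :=
  ⟨hardI_Question.toNPHardP, fun h _ hL => InP.of_reduces (hardI_Question.toNPHardP _ hL) h⟩

end Pool.Agent.Results.MP_9390ab_lc.GeneralizedPCGHard
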